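import Pool.Agent.Work.MP_279ba3_co.Main

set_option autoImplicit false

universe u

/-- Milner's first question, in a strong form. Let `G` be any simple graph (on a vertex set of any
cardinality) and let `n` be a natural number with `n ≤ col G`. Then `G` has a subgraph whose
colouring number is exactly `n`. In particular a graph with `col G = n + 1` has a subgraph `G'`
with `col G' = n`. -/
theorem Pool.Agent.Results.MP_279ba3_co.SubgraphColoringNumber.result
    {V : Type u} (G : SimpleGraph V) (n : ℕ)
    (hn : (n : Cardinal.{u}) ≤ Pool.Agent.Work.MP_279ba3_co.coloringNumber G) :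
    ∃ G' : G.Subgraph, Pool.Agent.Work.MP_279ba3_co.coloringNumber G'.coe = (n : Cardinal.{u}) :=
  Pool.Agent.Work.MP_279ba3_co.exists_subgraph_coloringNumber_eq G n hn
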